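import Pool.Agent.Helper80.TW.Main

/-!
# Gromov width of the twistor spaces of hyperbolic manifolds

`Z n` is the space of pairs (point of hyperbolic `2n`-space, orthogonal complex structure on the
tangent space there), `tform` its invariant symplectic form, normalised such that a projective line
in a fibre has area `2(n-2)`. Let `M` be a closed symplectic manifold which is the quotient of
`Z n`, or of a component of it, by a group `Γ` of isometries of hyperbolic space. If the ball of
radius `r` about a point `x₁` is disjoint from its translates under `Γ`, then the Gromov width of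
`M` is at least `2(n-2) · min (1, sinh² (r/2))`.

The ball is `z ↦ g J(T(s z)) g⁻¹`, where `J(T) = A i A⁻¹`, `A z = (1 + T̄ T)^(1/2) z + T̄ z̄`, and `T`
runs over the matrices which are skew for the form with signs `(1, …, 1, -1)`.
-/

namespace Pool.Agent.Results.MP_187b36_gt.TwistorWidth

open Pool.Agent.Helper80.TW
open scoped Matrix ENNReal

theorem result (n : ℕ) (hn : 3 ≤ n) (M : Type) [TopologicalSpace M] [T2Space M] [CompactSpace M]
    (S : Symp (Prs n) M) (Γ : Subgroup (Mat n)ˣ) (W : Set (Mat n)) (p : Mat n → M)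
    (hQ : IsTwistorQuotient S Γ W p) (x₁ : Vec n) (hx₁ : x₁ ∈ Hyp n) (r : ℝ) (hr : 0 < r)
    (hinj : ∀ γ ∈ Γ, γ ≠ 1 → ∀ x ∈ Hyp n, hdist n x₁ x < r →
      ¬ hdist n x₁ ((γ : Mat n) *ᵥ x) < r) :
    ENNReal.ofReal (2 * ((n : ℝ) - 2) * min 1 (Real.sinh (r / 2) ^ 2)) ≤ gromovWidth S := by
  refine core hn hQ (Bo_Iso hx₁) (Bo_mem hQ.acts.clopen hQ.acts.base hx₁) hr ?_
  rw [Bo_f hx₁]
  exact hinj

end Pool.Agent.Results.MP_187b36_gt.TwistorWidth
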